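import Pool.Agent.Helper99.SI.StK

set_option autoImplicit false

/-! Module K7 of project SI: components of ghost words have no positive cyclic part. -/

namespace Pool.Agent.Helper13.SI

open Pool.Agent.Helper99.SI

/-- A Laurent polynomial which vanishes at all nonzero points has zero coefficients. -/
theorem laurent_zero (F : Finset ℤ) (c : ℤ → ℂ)
    (h : ∀ z : ℂ, z ≠ 0 → ∑ j ∈ F, z ^ j * c j = 0) : ∀ j ∈ F, c j = 0 := by
  classical
  obtain ⟨M, hM⟩ : ∃ M : ℕ, ∀ j ∈ F, 0 ≤ j + (M : ℤ) := by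
    refine ⟨∑ j ∈ F, j.natAbs, fun j hj => ?_⟩
    have h1 : j.natAbs ≤ ∑ j ∈ F, j.natAbs :=
      Finset.single_le_sum (f := fun j : ℤ => j.natAbs) (fun _ _ => Nat.zero_le _) hj
    omega
  set P : Polynomial ℂ :=
    ∑ j ∈ F, Polynomial.C (c j) * Polynomial.X ^ (j + (M : ℤ)).toNat with hP
  have hP0 : P = 0 := by
    apply Polynomial.eq_zero_of_infinite_isRoot
    refine Set.Infinite.mono (s := {z : ℂ | z ≠ 0}) ?_ ?_
    · intro z hz
      change P.eval z = 0
      rw [hP, Polynomial.eval_finsetSum]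
      have h1 : ∑ j ∈ F, Polynomial.eval z
          (Polynomial.C (c j) * Polynomial.X ^ (j + (M : ℤ)).toNat) =
          z ^ (M : ℤ) * ∑ j ∈ F, z ^ j * c j := by
        rw [Finset.mul_sum]
        refine Finset.sum_congr rfl fun j hj => ?_
        have h2 : z ^ (j + (M : ℤ)).toNat = z ^ j * z ^ (M : ℤ) := by
          rw [← zpow_natCast, Int.toNat_of_nonneg (hM j hj), zpow_add₀ hz]
        rw [Polynomial.eval_mul, Polynomial.eval_C, Polynomial.eval_pow, Polynomial.eval_X, h2]
        ring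
      rw [h1, h z hz, mul_zero]
    · have : {z : ℂ | z ≠ 0} = ({0} : Set ℂ)ᶜ := by
        ext z; simp
      rw [this]
      exact (Set.finite_singleton (0 : ℂ)).infinite_compl
  intro j hj
  have h3 := congrArg (fun Q : Polynomial ℂ => Q.coeff (j + (M : ℤ)).toNat) hP0
  simp only [hP, Polynomial.finsetSum_coeff, Polynomial.coeff_C_mul, Polynomial.coeff_X_pow,
    Polynomial.coeff_zero] at h3
  rw [Finset.sum_eq_single j] at h3
  · simpa using h3
  · intro i hi hij
    have : ¬ (j + (M : ℤ)).toNat = (i + (M : ℤ)).toNat := by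
      have a1 := hM i hi
      have a2 := hM j hj
      omega
    rw [if_neg this, mul_zero]
  · intro h4
    exact absurd hj h4

/-- MODULE K7. -/
theorem hK7 (h1 : StA0) (h2 : StK2) (h3 : StK5) (h4 : StK6) : StK7 := by
  intro n L _ _ _ _ _ D a b j hb
  classical
  obtain ⟨hev, hadd, hsmul, -⟩ := h2 n L D b hb
  set x : L := star (D.w a) with hx
  have h0 : D.tau b 0 = 0 := by
    have := hsmul 0 0
    simpa using this
  -- the value at ev z
  have hz : ∀ z : ℂ, z ≠ 0 → D.tau b (D.b.ev z x) = 0 := by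
    intro z hz0
    have hz1 : (star z)⁻¹ ≠ 0 := inv_ne_zero (star_ne_zero.mpr hz0)
    obtain ⟨-, -, -, -, -, hst, -⟩ := h1 L D.b
    have e1 : star (D.b.ev (star z)⁻¹ (D.w a)) = D.b.ev z x := by
      rw [hst _ _ hz1, star_inv₀, star_star, inv_inv]
    obtain ⟨N1, hN1⟩ := h3 n L D b (D.b.ev (star z)⁻¹ (D.w a))
    obtain ⟨N2, hN2⟩ := h4 n L D a b (star z)⁻¹ hb hz1
    obtain ⟨N3, hN3⟩ := hev (D.b.ev z x)
    have a1 := hN1 (N1 + N2 + N3) (by omega)
    have a2 := hN2 (N1 + N2 + N3) (by omega)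
    have a3 := hN3 (N1 + N2 + N3) (by omega)
    rw [a2, e1, a3] at a1
    have a4 := congrArg star a1
    rw [star_star, star_zero] at a4
    exact a4.symm
  set F : Finset ℤ := (D.b.fin x).toFinset with hF
  have hsum : ∀ z : ℂ, z ≠ 0 → ∑ j ∈ F, z ^ j * D.tau b (D.b.p j x) = 0 := by
    intro z hz0
    have e2 : D.b.ev z x = ∑ j ∈ F, z ^ j • D.b.p j x := by
      change ∑ᶠ j : ℤ, z ^ j • D.b.p j x = _
      apply finsum_eq_sum_of_support_subset
      intro i hi
      rw [hF, Set.Finite.coe_toFinset]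
      intro h5
      apply hi
      change z ^ i • D.b.p i x = 0
      rw [h5, smul_zero]
    have e3 : D.tau b (∑ j ∈ F, z ^ j • D.b.p j x) = ∑ j ∈ F, D.tau b (z ^ j • D.b.p j x) :=
      map_sum (AddMonoidHom.mk' (D.tau b) hadd) _ _
    have e4 := hz z hz0
    rw [e2, e3] at e4
    rw [← e4]
    refine Finset.sum_congr rfl fun i _ => ?_
    rw [hsmul]
  by_cases hj : j ∈ F
  · exact laurent_zero F (fun j => D.tau b (D.b.p j x)) hsum j hj
  · have : D.b.p j x = 0 := by
      by_contra h6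
      apply hj
      rw [hF, Set.Finite.mem_toFinset]
      exact h6
    rw [this, h0]

end Pool.Agent.Helper13.SI
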